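import Pool.Agent.Q51.SZ.Stm
import Pool.Agent.Q38.SX.PRM
import Pool.Agent.Q241.ZC.Pl
import Pool.Agent.Y157.PS.Loc

/-! Job FIB of project SZ (helper51): the number of the embeddings that belong to a prime. -/

set_option autoImplicit false

namespace Pool.Agent.Q124.SZ

open Polynomial NumberField IsDedekindDomain Finset
open Pool.Agent.Q51.SZ
open Pool.Agent.Q51.ZC (dg)
open Pool.Agent.Y157.PS (Dec Ine IsU nonunits_iff residue_zero_iff non_of_isU_mul IsU.not_nonunit
  isU_one non_neg)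
open Pool.Agent.Q51.EL (Abv Setup)
open Pool.Agent.Q239.EL (sum_ph ab_finite ph ph_pos)
open Pool.Agent.Q38.SX (int_mem)
open Pool.Agent.Q241.ZC (abs_norm)

section field

variable {A L : Type} [Field A] [Field L] [NumberField L] (V : ValuationSubring A)

/-- the reduction of an embedding -/
noncomputable def rdc (j : L →+* A) : 𝓞 L →+* IsLocalRing.ResidueField V :=
  (IsLocalRing.residue V).comp
    ((j.comp (algebraMap (𝓞 L) L)).codRestrict V.toSubring fun a => int_mem V j a)

theorem rdc_eq (j j' : L →+* A) (x y : 𝓞 L) :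
    rdc V j x = rdc V j' y ↔ j (x : L) - j' (y : L) ∈ V.nonunits := by
  unfold rdc
  rw [RingHom.comp_apply, RingHom.comp_apply, ← sub_eq_zero, ← map_sub, residue_zero_iff]
  rfl

theorem rdc_zero (j : L →+* A) (x : 𝓞 L) (hx : j (x : L) ∈ V.nonunits) : rdc V j x = 0 := by
  have h := (rdc_eq V j j x 0).mpr (by simpa using hx)
  rw [h, map_zero]

theorem fib_card {l : ℕ} [hl : Fact l.Prime] (hV : (l : A) ∈ V.nonunits)
    {v : HeightOneSpectrum (𝓞 L)} (hv : Abv v l) {ι : Type} (S : Finset ι) (φ : ι → (L →+* A))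
    (h1 : ∀ i ∈ S, ∀ x ∈ v.asIdeal, φ i ((x : 𝓞 L) : L) ∈ V.nonunits) (t : 𝓞 L)
    (h2 : ∀ i ∈ S, ∀ i' ∈ S, i ≠ i' → φ i (t : L) - φ i' (t : L) ∉ V.nonunits) :
    S.card ≤ dg l v := by
  classical
  have hmax : v.asIdeal.IsMaximal := v.isMaximal
  let _ : Field (𝓞 L ⧸ v.asIdeal) := Ideal.Quotient.field v.asIdeal
  have hc : Nat.card (𝓞 L ⧸ v.asIdeal) = l ^ dg l v := by
    rw [← abs_norm hv, Ideal.absNorm_apply, Submodule.cardQuot_apply]
  have hfin : Finite (𝓞 L ⧸ v.asIdeal) := Nat.finite_of_card_ne_zero (by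
    rw [hc]
    exact pow_ne_zero _ hl.out.ne_zero)
  have c1 : CharP (𝓞 L ⧸ v.asIdeal) l := by
    rw [CharP.charP_iff_prime_eq_zero hl.out]
    have h3 : ((l : ℕ) : 𝓞 L ⧸ v.asIdeal) = Ideal.Quotient.mk v.asIdeal ((l : ℕ) : 𝓞 L) := by simp
    rw [h3, Ideal.Quotient.eq_zero_iff_mem]
    exact hv
  have c2 : CharP (IsLocalRing.ResidueField V) l := by
    rw [CharP.charP_iff_prime_eq_zero hl.out]
    have h3 : ((l : ℕ) : IsLocalRing.ResidueField V) = IsLocalRing.residue V ((l : ℕ) : V) := by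
      rw [map_natCast]
    rw [h3, residue_zero_iff]
    exact hV
  let _ : Algebra (ZMod l) (𝓞 L ⧸ v.asIdeal) := ZMod.algebra _ l
  let _ : Algebra (ZMod l) (IsLocalRing.ResidueField V) := ZMod.algebra _ l
  have : Module.Finite (ZMod l) (𝓞 L ⧸ v.asIdeal) := Module.Finite.of_finite
  have hfr : Module.finrank (ZMod l) (𝓞 L ⧸ v.asIdeal) = dg l v := by
    have h3 := Module.natCard_eq_pow_finrank (K := ZMod l) (V := 𝓞 L ⧸ v.asIdeal)
    rw [hc, Nat.card_zmod] at h3
    exact (Nat.pow_right_injective hl.out.two_le h3).symm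
  have hle := card_algHom_le_finrank (ZMod l) (𝓞 L ⧸ v.asIdeal) (IsLocalRing.ResidueField V)
  rw [hfr] at hle
  refine le_trans ?_ hle
  have hz : ∀ (i : S), ∀ x ∈ v.asIdeal, rdc V (φ i.1) x = 0 := fun i x hx =>
    rdc_zero V _ _ (h1 i.1 i.2 x hx)
  let G : S → ((𝓞 L ⧸ v.asIdeal) →ₐ[ZMod l] (IsLocalRing.ResidueField V)) := fun i =>
    { Ideal.Quotient.lift v.asIdeal (rdc V (φ i.1)) (hz i) with
      commutes' := by
        intro r
        exact RingHom.congr_fun (RingHom.ext_zmod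
          ((Ideal.Quotient.lift v.asIdeal (rdc V (φ i.1)) (hz i)).comp
            (algebraMap (ZMod l) (𝓞 L ⧸ v.asIdeal)))
          (algebraMap (ZMod l) (IsLocalRing.ResidueField V))) r }
  have hG : ∀ (i : S) (x : 𝓞 L), G i (Ideal.Quotient.mk v.asIdeal x) = rdc V (φ i.1) x := by
    intro i x
    rfl
  have hinj : Function.Injective G := by
    intro i i' h
    by_contra hne
    have h3 := hG i t
    rw [h, hG i' t] at h3
    have h4 := (rdc_eq V _ _ _ _).mp h3
    exact h2 i'.1 i'.2 i.1 i.2 (fun h5 => hne (Subtype.ext h5.symm)) h4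
  have h5 := Nat.card_le_card_of_injective G hinj
  rw [Nat.card_eq_fintype_card, Fintype.card_coe] at h5
  exact h5

end field

/-- **FIB** -/
theorem fib : S_FIB := by
  classical
  intro f L _ _ θ hs q B A _ _ _ hG hsq J hJ l V hAt π hπ v hv
  have hl := hAt.pr
  have : Fact l.Prime := ⟨hl⟩
  have hlc := hG.lc l V hAt
  have hint : IsIntegral ℤ (f.leadingCoeff • θ) := isIntegral_leadingCoeff_smul f θ hs.root
  let t : 𝓞 L := ⟨f.leadingCoeff • θ, hint⟩
  have hfib : ∀ v : HeightOneSpectrum (𝓞 L), Abv v l →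
      (univ.filter (fun i : Rt f A => π i = v)).card ≤ dg l v := by
    intro v hv
    refine fib_card V hAt.ab hv _ (fun i => (J i : L →+* A)) ?_ t ?_
    · intro i hi x hx
      have h1 := (mem_filter.mp hi).2
      rw [← h1] at hx
      exact (hπ.mem i x).1 hx
    · intro i _ i' _ hne h
      have e : (t : L) = (f.leadingCoeff : L) * θ := by
        change f.leadingCoeff • θ = _
        rw [← zsmul_eq_mul]
      have e1 : ∀ k : Rt f A, (J k : L →+* A) (t : L) = (f.leadingCoeff : A) * k.1 := by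
        intro k
        rw [e, map_mul, map_intCast, ← hJ k]
        rfl
      rw [e1, e1, ← mul_sub] at h
      exact (hG.dist l V hAt i i' hne).not_nonunit (non_of_isU_mul hlc h)
  have hsum : ∀ v ∈ (ab_finite (L := L) hl.ne_zero).toFinset,
      (univ.filter (fun i : Rt f A => π i = v)).card = ph l v.asIdeal := by
    rw [← sum_eq_sum_iff_of_le]
    · rw [sum_ph (hsq l hl hAt.nd), hs.deg, ← hG.crd]
      have h1 := card_eq_sum_card_fiberwise (s := (univ : Finset (Rt f A)))
        (t := (ab_finite (L := L) hl.ne_zero).toFinset) (f := π) (fun i _ => by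
          rw [Set.Finite.coe_toFinset]
          exact hπ.abv i)
      rw [← h1, card_univ, Fintype.card_coe]
    · intro v hv
      exact hfib v ((ab_finite hl.ne_zero).mem_toFinset.mp hv)
  exact ⟨ph_pos hv, hsum v ((ab_finite hl.ne_zero).mem_toFinset.mpr hv)⟩

end Pool.Agent.Q124.SZ
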