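import Pool.Agent.Q51.SZ.Stm
import Pool.Agent.Q38.SX.PRM
import Pool.Agent.Q150.SX.Plc
import Pool.Agent.Q239.EL.ROOT

/-! Job PLC of project SZ (helper51): the primes of `L` above `l` and the embeddings of `L` in `A`. -/

set_option autoImplicit false

namespace Pool.Agent.Q124.SZ

open Polynomial NumberField IsDedekindDomain Finset
open Pool.Agent.Q51.SZ
open Pool.Agent.Y157.PS (Dec Ine IsU nonunits_iff)
open Pool.Agent.Q51.EL (Abv Setup)
open Pool.Agent.Q239.EL (theta_deg mu_l val_int)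
open Pool.Agent.Q38.SX (prm1 prm int_mem key)

section field

variable {f : ℤ[X]} {L : Type} [Field L] [NumberField L] {θ : L}

theorem exists_poly (hs : Setup f L θ) (x : L) : ∃ h : ℚ[X], aeval θ h = x := by
  have hint : IsIntegral ℚ θ := Algebra.IsIntegral.isIntegral θ
  have htop : IntermediateField.adjoin ℚ {θ} = ⊤ :=
    (Field.primitive_element_iff_minpoly_natDegree_eq ℚ θ).mpr (theta_deg hs)
  have htop' : Algebra.adjoin ℚ {θ} = ⊤ := by
    rw [← IntermediateField.adjoin_simple_toSubalgebra_of_isAlgebraic hint.isAlgebraic, htop]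
    rfl
  have hx : x ∈ Algebra.adjoin ℚ {θ} := by
    rw [htop']
    trivial
  rw [Algebra.adjoin_singleton_eq_range_aeval] at hx
  exact hx

theorem hom_ext {A : Type} [Field A] [Algebra ℚ A] (hs : Setup f L θ) {φ ψ : L →ₐ[ℚ] A}
    (h : φ θ = ψ θ) : φ = ψ := by
  ext x
  obtain ⟨g, rfl⟩ := exists_poly hs x
  rw [← aeval_algHom_apply, ← aeval_algHom_apply, h]

theorem f_ne (hs : Setup f L θ) : f ≠ 0 := by
  intro h
  have := hs.irr.ne_zero
  rw [h, Polynomial.map_zero] at this
  exact this rfl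

theorem hom_root {A : Type} [Field A] [Algebra ℚ A] (hs : Setup f L θ) (φ : L →ₐ[ℚ] A) :
    φ θ ∈ rts f A := by
  have : CharZero A := algebraRat.charZero A
  rw [mem_rts]
  refine ⟨(Polynomial.map_ne_zero_iff (RingHom.injective_int (Int.castRingHom A))).2 (f_ne hs), ?_⟩
  have h1 := hs.root
  unfold IsRoot
  rw [eval_map]
  have h2 := hom_eval₂ f (algebraMap ℤ L) (φ : L →+* A) θ
  rw [← aeval_def, h1, map_zero] at h2
  rw [RingHom.coe_coe] at h2
  rw [h2]
  congr 1
  exact RingHom.ext_int _ _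

end field

theorem conj_hom {L A : Type} [Field L] [NumberField L] [Field A] [Algebra ℚ A] [Normal ℚ A]
    (φ : L →ₐ[ℚ] A) (V V' : ValuationSubring A) (h : ∀ a : L, φ a ∈ V ↔ φ a ∈ V') :
    ∃ γ : A ≃ₐ[ℚ] A, (∀ a, γ (φ a) = φ a) ∧ ∀ z, z ∈ V' ↔ γ z ∈ V := by
  let _ : Algebra L A := φ.toRingHom.toAlgebra
  have : IsScalarTower ℚ L A := IsScalarTower.of_algebraMap_eq fun x => (φ.commutes x).symm
  have : Normal L A := Normal.tower_top_of_normal ℚ L A
  obtain ⟨γ, hγ⟩ := Pool.Agent.Y536.PS.conj L A V V' (by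
    ext a
    rw [ValuationSubring.mem_comap, ValuationSubring.mem_comap]
    exact h a)
  exact ⟨γ.restrictScalars ℚ, fun a => γ.commutes a, hγ⟩

section loc

variable {A L : Type} [Field A] [Field L] [NumberField L] {V : ValuationSubring A} {j : L →+* A}
  {v : HeightOneSpectrum (𝓞 L)}

theorem val_le_iff (hv : ∀ a : 𝓞 L, a ∈ v.asIdeal ↔ j (a : L) ∈ V.nonunits) (a : L) :
    j a ∈ V ↔ v.valuation L a ≤ 1 := by
  rw [← V.valuation_le_one_iff]
  constructor
  · intro h
    by_contra hc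
    rw [not_le] at hc
    have h5 : v.valuation L a⁻¹ < 1 := by
      rw [map_inv₀]
      exact inv_lt_one_of_one_lt₀ hc
    obtain ⟨-, h2⟩ := key V j v (int_mem V j) hv a⁻¹ h5.le
    have h3 := h2.1 h5
    have ha : a ≠ 0 := by
      rintro rfl
      rw [map_zero] at hc
      exact absurd hc (not_lt.2 zero_le_one)
    have h4 : V.valuation (j a) ≠ 0 :=
      (Valuation.ne_zero_iff _).2 ((map_ne_zero_iff j j.injective).2 ha)
    rw [map_inv₀, map_inv₀] at h3
    have h6 := (one_lt_inv₀ (zero_lt_iff.2 (inv_ne_zero h4))).2 h3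
    rw [inv_inv] at h6
    exact absurd h6 (not_lt.2 h)
  · intro h
    exact (key V j v (int_mem V j) hv a h).1

theorem val_lt_iff (hv : ∀ a : 𝓞 L, a ∈ v.asIdeal ↔ j (a : L) ∈ V.nonunits) (a : L) :
    j a ∈ V.nonunits ↔ v.valuation L a < 1 := by
  rw [ValuationSubring.mem_nonunits_iff]
  constructor
  · intro h
    have h1 := (val_le_iff hv a).1 ((V.valuation_le_one_iff _).1 h.le)
    exact (key V j v (int_mem V j) hv a h1).2.2 h
  · intro h
    exact (key V j v (int_mem V j) hv a h.le).2.1 h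

end loc

/-- **PLC** -/
theorem plc : S_PLC := by
  classical
  intro f L _ _ θ hs q B A _ _ _ hG hsq J hJ l V hAt
  have : CharZero A := algebraRat.charZero A
  have : IsAlgClosed A := IsAlgClosure.isAlgClosed ℚ
  have : Algebra.IsAlgebraic ℚ A := IsAlgClosure.isAlgebraic
  have : Normal ℚ A := IsAlgClosure.normal ℚ A
  have hl := hAt.pr
  have : Fact l.Prime := ⟨hl⟩
  have hV := hAt.ab
  choose π h1 h2 h3 using fun i => prm1 l hl.ne_zero V hV (J i : L →+* A)
  have hJs : ∀ (σ : A ≃ₐ[ℚ] A) (i : Rt f A), J (σ • i) = (σ : A →ₐ[ℚ] A).comp (J i) := by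
    intro σ i
    apply hom_ext hs
    rw [hJ, smul_val]
    change σ i.1 = σ (J i θ)
    rw [hJ]
  have hvl : ∀ i, (π i).valuation L (l : L) = WithZero.exp (-1 : ℤ) := by
    intro i
    have hl0 : (l : 𝓞 L) ≠ 0 := by exact_mod_cast hl.ne_zero
    have e1 := val_int (π i) hl0
    rw [mu_l (hsq l hl hAt.nd) (h1 i)] at e1
    have h : (((l : ℕ) : 𝓞 L) : L) = ((l : ℕ) : L) := map_natCast (algebraMap (𝓞 L) L) l
    rw [h] at e1
    simpa using e1
  refine ⟨π, h1, ?_, ?_, ?_, fun i a => h2 i a, ?_, ?_⟩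
  · intro σ hσ i
    refine HeightOneSpectrum.ext ?_
    ext x
    rw [h2, h2, hJs]
    exact hσ.non _
  · intro i j hij
    have hmp : IsConjRoot ℚ i.1 j.1 := by
      unfold IsConjRoot
      rw [← hJ i, ← hJ j, minpoly.algHom_eq _ (J i).injective, minpoly.algHom_eq _ (J j).injective]
    obtain ⟨τ, hτ⟩ := isConjRoot_iff_exists_algEquiv.1 hmp.symm
    have hτJ' : ∀ a, τ (J i a) = J j a := by
      intro a
      have : (τ : A →ₐ[ℚ] A).comp (J i) = J j := by
        apply hom_ext hs
        change τ (J i θ) = J j θ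
        rw [hJ, hJ]
        exact hτ
      exact congrFun (congrArg DFunLike.coe this) a
    let V' : ValuationSubring A := V.comap ((τ : A ≃ₐ[ℚ] A) : A →+* A)
    have hV' : ∀ z, z ∈ V' ↔ τ z ∈ V := fun z => Iff.rfl
    obtain ⟨γ, hγ1, hγ2⟩ := conj_hom (J i) V V' (fun a => by
      rw [hV', hτJ']
      have e1 := val_le_iff (V := V) (j := (J i : L →+* A)) (v := π i) (h2 i) a
      have e2 := val_le_iff (V := V) (j := (J j : L →+* A)) (v := π j) (h2 j) a
      rw [← hij] at e2
      exact e1.trans e2.symm)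
    refine ⟨τ * γ.symm, ?_, ?_⟩
    · intro z
      change τ (γ.symm z) ∈ V ↔ z ∈ V
      rw [← hV', hγ2, AlgEquiv.apply_symm_apply]
    · apply Subtype.ext
      rw [smul_val]
      change τ (γ.symm i.1) = j.1
      have e1 : γ.symm i.1 = i.1 := by
        rw [← hJ i]
        exact (AlgEquiv.symm_apply_eq γ).2 (hγ1 θ).symm
      rw [e1, ← hJ i, hτJ', hJ]
  · intro v hv
    obtain ⟨j, hj⟩ := (prm Pool.Agent.Q150.SX.cnj A L l hl V hV).2 v hv
    refine ⟨⟨j θ, hom_root hs j⟩, ?_⟩
    have e1 : J ⟨j θ, hom_root hs j⟩ = j := by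
      apply hom_ext hs
      rw [hJ]
    refine HeightOneSpectrum.ext ?_
    ext x
    rw [h2, hj, e1]
    exact Iff.rfl
  · intro i a k
    by_cases ha : a = 0
    · subst ha
      rw [map_zero, map_zero, zero_div]
      constructor
      · intro h
        exact absurd h.symm WithZero.exp_ne_zero
      · intro h
        exact absurd rfl h.1
    · have hl0 : (l : L) ≠ 0 := by exact_mod_cast hl.ne_zero
      have hz : a / (l : L) ^ k ≠ 0 := div_ne_zero ha (zpow_ne_zero _ hl0)
      have e1 := h3 i (a / (l : L) ^ k) hz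
      have e2 : (J i : L →+* A) (a / (l : L) ^ k) = J i a / (l : A) ^ k := by
        rw [map_div₀, map_zpow₀, map_natCast]
        rfl
      rw [e2] at e1
      have e3 : IsU V (J i a / (l : A) ^ k) ↔ (π i).valuation L (a / (l : L) ^ k) = 1 := e1
      rw [e3, map_div₀, map_zpow₀, hvl, ← WithZero.exp_zsmul,
        div_eq_one_iff_eq WithZero.exp_ne_zero]
      have e4 : k • (-1 : ℤ) = -k := by rw [smul_eq_mul]; ring
      rw [e4]
  · intro i a b hb h
    have e1 : (J i : L →+* A) (a / b) ∈ V.nonunits := by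
      rw [map_div₀]
      exact h
    have e2 := (val_lt_iff (V := V) (j := (J i : L →+* A)) (v := π i) (h2 i) (a / b)).1 e1
    rw [map_div₀] at e2
    have e3 : (π i).valuation L b ≠ 0 := (Valuation.ne_zero_iff _).2 hb
    exact (div_lt_one₀ (zero_lt_iff.2 e3)).1 e2

end Pool.Agent.Q124.SZ
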