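import Pool.Agent.Q51.SZ.Stm
import Pool.Agent.Q86.ZC.Self
import Pool.Agent.Q239.EL.NV

/-! Job TYP of project SZ (helper51): the types are finite in number. -/

set_option autoImplicit false

namespace Pool.Agent.Q124.SZ

open Polynomial NumberField IsDedekindDomain Finset
open Pool.Agent.Q51.SZ
open Pool.Agent.Q51.EL (Abv)
open Pool.Agent.Q51.SE (Parq)
open Pool.Agent.Q239.EL (below)

section

variable {f : ℤ[X]} {A : Type} [Field A] [Algebra ℚ A]

/-- the field generated by two zeros -/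
noncomputable def Fd (p : Rt f A × Rt f A) : IntermediateField ℚ A :=
  IntermediateField.adjoin ℚ {p.1.1, p.2.1}

theorem nf [Algebra.IsAlgebraic ℚ A] (p : Rt f A × Rt f A) : NumberField (Fd p) := by
  have h1 : FiniteDimensional ℚ (Fd p) :=
    IntermediateField.finiteDimensional_adjoin (fun x _ => Algebra.IsIntegral.isIntegral x)
  have h2 : CharZero A := algebraRat.charZero A
  have h3 : CharZero (Fd p) := inferInstance
  exact @NumberField.mk _ _ h3 (by
    convert h1
    exact Subsingleton.elim _ _)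

theorem fix_Fd {p : Rt f A × Rt f A} {σ : A ≃ₐ[ℚ] A} (h1 : σ • p.1 = p.1) (h2 : σ • p.2 = p.2)
    {x : A} (hx : x ∈ Fd p) : σ x = x := by
  have e1 : σ p.1.1 = p.1.1 := by rw [← smul_val, h1]
  have e2 : σ p.2.1 = p.2.1 := by rw [← smul_val, h2]
  unfold Fd at hx
  induction hx using IntermediateField.adjoin_induction with
  | mem x hx =>
    rcases hx with rfl | hx
    · exact e1
    · rw [Set.mem_singleton_iff] at hx
      rw [hx]
      exact e2
  | algebraMap x => exact σ.commutes x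
  | add x y _ _ hx hy => rw [map_add, hx, hy]
  | inv x _ hx => rw [map_inv₀, hx]
  | mul x y _ _ hx hy => rw [map_mul, hx, hy]

theorem mem_Fd [IsGalois ℚ A] {p : Rt f A × Rt f A} {x : A}
    (h : ∀ σ : A ≃ₐ[ℚ] A, σ • p.1 = p.1 → σ • p.2 = p.2 → σ x = x) : x ∈ Fd p := by
  rw [← InfiniteGalois.fixedField_fixingSubgroup (Fd p), IntermediateField.mem_fixedField_iff]
  intro σ hσ
  rw [IntermediateField.mem_fixingSubgroup_iff] at hσ
  refine h σ (Subtype.ext ?_) (Subtype.ext ?_)
  · rw [smul_val]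
    exact hσ _ (IntermediateField.subset_adjoin _ _ (Set.mem_insert _ _))
  · rw [smul_val]
    exact hσ _ (IntermediateField.subset_adjoin _ _ (Set.mem_insert_of_mem _ rfl))

end

/-- **TYP** -/
theorem typ (hE : S_EVQ) : S_TYP := by
  classical
  intro f q B hq hB A _ _ _
  have : CharZero A := algebraRat.charZero A
  have : IsAlgClosed A := IsAlgClosure.isAlgClosed ℚ
  have : Algebra.IsAlgebraic ℚ A := IsAlgClosure.isAlgebraic
  have : Normal ℚ A := IsAlgClosure.normal ℚ A
  have : IsGalois ℚ A := IsGalois.mk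
  have hnf : ∀ p : Rt f A × Rt f A, NumberField (Fd p) := nf
  choose Y hY using fun p : Rt f A × Rt f A =>
    @Pool.Agent.Q86.ZC.self (Fd p) _ (hnf p) q hq B hB
  -- elements of `Y`
  have key : ∀ t : Rt f A → Rt f A → A, Ty q B t → ∀ p : Rt f A × Rt f A,
      ∃ y : {y // y ∈ Y p}, ∃ η : Fd p, η ≠ 0 ∧ t p.1 p.2 = (y.1 : A) * (η : A) ^ q := by
    intro t ht p
    have hmem : t p.1 p.2 ∈ Fd p := by
      refine mem_Fd fun σ h1 h2 => ?_
      rw [ht.eqv, h1, h2]
    have hne : (⟨t p.1 p.2, hmem⟩ : Fd p) ≠ 0 := by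
      intro h
      exact ht.nz p.1 p.2 (congrArg Subtype.val h)
    obtain ⟨y, hy, η, hη, h3⟩ := hY p ⟨t p.1 p.2, hmem⟩ hne (by
      intro v hv
      obtain ⟨l, k, hl, hlv, -, -⟩ := @below (Fd p) _ (hnf p) v
      have hlB : ¬ l ∣ B := by
        rintro ⟨c, rfl⟩
        apply hv
        push_cast
        exact v.asIdeal.mul_mem_right _ hlv
      obtain ⟨V, hV, hPV⟩ := ht.val l hl hlB
      exact @hE A _ _ _ (Fd p) (hnf p) q l hl V hV _ hne (fun τ => by
        change PV q V l (τ (t p.1 p.2)) 0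
        rw [ht.eqv]
        exact hPV _ _) v hlv)
    refine ⟨⟨y, hy⟩, η, hη, ?_⟩
    have h4 := congrArg (Subtype.val : Fd p → A) h3
    exact h4
  let code : (Rt f A → Rt f A → A) → ∀ p : Rt f A × Rt f A, Option {y // y ∈ Y p} :=
    fun t p => if h : Ty q B t then some (key t h p).choose else none
  have hfin : Finite (∀ p : Rt f A × Rt f A, Option {y // y ∈ Y p}) := inferInstance
  refine ⟨Nat.card (∀ p : Rt f A × Rt f A, Option {y // y ∈ Y p}),
    fun t => Finite.equivFin _ (code t), ?_⟩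
  intro t t' ht ht' heq
  have hcode : code t = code t' := (Finite.equivFin _).injective heq
  have hex : ∀ p : Rt f A × Rt f A, ∃ e : A, (e ≠ 0 ∧ t' p.1 p.2 = t p.1 p.2 * e ^ q) ∧
      ∀ σ : A ≃ₐ[ℚ] A, (σ • p.1, σ • p.2) = p → σ e = e := by
    intro p
    have h1 : some (key t ht p).choose = some (key t' ht' p).choose := by
      have h2 := congrFun hcode p
      simp only [code] at h2
      rw [dif_pos ht, dif_pos ht'] at h2
      exact h2
    have h3 := Option.some_injective _ h1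
    obtain ⟨η, hη, h4⟩ := (key t ht p).choose_spec
    obtain ⟨η', hη', h5⟩ := (key t' ht' p).choose_spec
    rw [← h3] at h5
    have hηA : (η : A) ≠ 0 := fun h => hη (Subtype.ext h)
    have hηA' : (η' : A) ≠ 0 := fun h => hη' (Subtype.ext h)
    refine ⟨(η' : A) / (η : A), ⟨div_ne_zero hηA' hηA, ?_⟩, ?_⟩
    · rw [h4, h5, div_pow]
      field_simp
    · intro σ hσ
      have e1 : σ • p.1 = p.1 := congrArg Prod.fst hσ
      have e2 : σ • p.2 = p.2 := congrArg Prod.snd hσ
      exact fix_Fd e1 e2 (div_mem η'.2 η.2)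
  obtain ⟨F, hF1, hF2⟩ := eqv_choice (Δ := A ≃ₐ[ℚ] A) (X := Rt f A × Rt f A) (Y := A)
    (fun σ p => (σ • p.1, σ • p.2)) (fun p => by rw [one_smul, one_smul])
    (fun σ τ p => by rw [mul_smul, mul_smul]) (fun σ y => σ y) (fun y => rfl)
    (fun σ τ y => rfl) Set.univ (fun _ _ _ => Set.mem_univ _)
    (fun p e => e ≠ 0 ∧ t' p.1 p.2 = t p.1 p.2 * e ^ q)
    (fun σ p _ e he => by
      refine ⟨(map_ne_zero_iff σ σ.injective).2 he.1, ?_⟩
      change t' (σ • p.1) (σ • p.2) = t (σ • p.1) (σ • p.2) * (σ e) ^ q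
      rw [← ht'.eqv, ← ht.eqv, he.2, map_mul, map_pow])
    (fun p _ => hex p)
  refine ⟨fun i j => F (i, j), fun i j => hF2 (i, j) (Set.mem_univ _), fun σ i j => ?_⟩
  exact (hF1 σ (i, j) (Set.mem_univ _)).symm

end Pool.Agent.Q124.SZ
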