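import Pool.Agent.Q51.SZ.Stm
import Pool.Agent.Y157.PS.Tools

/-! Job VLB of project SZ (helper51): the values of the Kummer classes. -/

set_option autoImplicit false

namespace Pool.Agent.Q124.SZ

open Polynomial NumberField IsDedekindDomain Finset
open Pool.Agent.Q51.SZ
open Pool.Agent.Y157.PS (Dec Ine IsU nonunits_iff IsU.mul IsU.inv IsU.div isU_one
  isU_of_not_nonunit non_add non_mul IsU.not_nonunit)

section vl

variable {A : Type} [Field A] {V : ValuationSubring A} {l : ℕ}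

/-- the value of `a` is `l ^ e` -/
def Vl (V : ValuationSubring A) (l : ℕ) (a : A) (e : ℤ) : Prop := IsU V (a / (l : A) ^ e)

theorem Vl.mul (hl : (l : A) ≠ 0) {a b : A} {d e : ℤ} (h : Vl V l a d) (h' : Vl V l b e) :
    Vl V l (a * b) (d + e) := by
  have h1 := IsU.mul h h'
  unfold Vl
  rw [zpow_add₀ hl, mul_div_mul_comm]
  exact h1

theorem Vl.inv {a : A} {d : ℤ} (h : Vl V l a d) : Vl V l a⁻¹ (-d) := by
  have h1 := IsU.inv h
  unfold Vl
  rw [zpow_neg, inv_div_inv]
  rw [inv_div] at h1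
  exact h1

theorem Vl.div (hl : (l : A) ≠ 0) {a b : A} {d e : ℤ} (h : Vl V l a d) (h' : Vl V l b e) :
    Vl V l (a / b) (d - e) := by
  rw [div_eq_mul_inv, sub_eq_add_neg]
  exact h.mul hl h'.inv

theorem Vl.one : Vl V l 1 0 := by
  unfold Vl
  rw [zpow_zero, div_one]
  exact isU_one

theorem Vl.npow (hl : (l : A) ≠ 0) {a : A} {d : ℤ} (h : Vl V l a d) (n : ℕ) :
    Vl V l (a ^ n) (n * d) := by
  induction n with
  | zero =>
    rw [pow_zero, Nat.cast_zero, zero_mul]
    exact Vl.one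
  | succ n ih =>
    rw [pow_succ]
    have h1 := ih.mul hl h
    have h2 : ((n + 1 : ℕ) : ℤ) * d = n * d + d := by push_cast; ring
    rw [h2]
    exact h1

theorem Vl.zpow (hl : (l : A) ≠ 0) {a : A} {d : ℤ} (h : Vl V l a d) (n : ℤ) :
    Vl V l (a ^ n) (n * d) := by
  obtain ⟨m, rfl | rfl⟩ := n.eq_nat_or_neg
  · rw [zpow_natCast]
    exact h.npow hl m
  · rw [zpow_neg, zpow_natCast, neg_mul]
    exact (h.npow hl m).inv

theorem Vl.prod (hl : (l : A) ≠ 0) {ι : Type} (s : Finset ι) (g : ι → A) (e : ι → ℤ)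
    (h : ∀ i ∈ s, Vl V l (g i) (e i)) : Vl V l (∏ i ∈ s, g i) (∑ i ∈ s, e i) := by
  classical
  induction s using Finset.induction_on with
  | empty =>
    rw [Finset.prod_empty, Finset.sum_empty]
    exact Vl.one
  | insert a s ha ih =>
    rw [Finset.prod_insert ha, Finset.sum_insert ha]
    exact (h a (mem_insert_self a s)).mul hl (ih fun i hi => h i (mem_insert_of_mem hi))

theorem Vl.of_isU {a : A} (h : IsU V a) : Vl V l a 0 := by
  unfold Vl
  rw [zpow_zero, div_one]
  exact h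

theorem isU_int (hp : l.Prime) (hV : (l : A) ∈ V.nonunits) {c : ℤ} (hc : ¬ (l : ℤ) ∣ c) :
    IsU V (c : A) := by
  refine isU_of_not_nonunit (intCast_mem V.toSubring c) fun h => ?_
  have h1 : IsCoprime (l : ℤ) c :=
    (Nat.prime_iff_prime_int.1 hp).irreducible.coprime_iff_not_dvd.2 hc
  obtain ⟨u, v, huv⟩ := h1
  have h2 : (u : A) * (l : A) + (v : A) * (c : A) = 1 := by
    have h3 := congrArg (Int.cast (R := A)) huv
    push_cast at h3
    exact h3
  have h3 : (1 : A) ∈ V.nonunits := by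
    rw [← h2]
    exact non_add (non_mul (intCast_mem V.toSubring u) hV) (non_mul (intCast_mem V.toSubring v) h)
  exact isU_one.not_nonunit h3

end vl

/-- **VLB** -/
theorem vlb (hI : S_INV) : S_VLB := by
  classical
  intro f q B A _ _ _ hG hq l V hAt D hD hD2 M U hU hUe i j
  have : CharZero A := algebraRat.charZero A
  obtain ⟨i1, i2, -, -⟩ := hI f q B A hG hq l V hAt
  have hl := hAt.pr
  have hl0 : (l : A) ≠ 0 := by exact_mod_cast hl.ne_zero
  -- the value of `D`
  have hDv : Vl V l (D : A) 1 := by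
    obtain ⟨c, rfl⟩ := hD
    have hc : ¬ (l : ℤ) ∣ c := by
      rintro ⟨e, rfl⟩
      exact hD2 ⟨e, by ring⟩
    have h1 := isU_int hl hAt.ab hc
    unfold Vl
    push_cast
    rw [zpow_one, mul_div_cancel_left₀ _ hl0]
    exact h1
  have hW : ∀ r i : Rt f A, Vl V l (Wf f D r i) (if i = r then 1 else 0) := by
    intro r i
    unfold Wf
    by_cases h : i = r
    · rw [if_pos h, if_pos h]
      have h1 : Vl V l (∏ k ∈ univ.erase r, (r.1 - k.1)) (∑ _k ∈ univ.erase r, (0 : ℤ)) :=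
        Vl.prod hl0 _ _ _ fun k hk =>
          Vl.of_isU (hG.dist l V hAt r k (Finset.ne_of_mem_erase hk).symm)
      have h2 := hDv.div hl0 ((Vl.of_isU (hG.lc l V hAt)).mul hl0 h1)
      rw [Finset.sum_const_zero, add_zero, sub_zero] at h2
      convert h2
    · rw [if_neg h, if_neg h]
      exact Vl.of_isU (hG.dist l V hAt r i (Ne.symm h))
  have hC : ∀ r : Rt f A, Vl V l (Cf f D r i j)
      ((if i = r then 1 else 0) - (if j = r then 1 else 0)) := fun r =>
    (hW r i).div hl0 (hW r j)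
  have hP : Vl V l (∏ r, Cf f D r i j ^ M r)
      (∑ r, M r * ((if i = r then 1 else 0) - (if j = r then 1 else 0))) :=
    Vl.prod hl0 _ _ _ fun r _ => (hC r).zpow hl0 (M r)
  have hS : ∑ r : Rt f A, M r * ((if i = r then 1 else 0) - (if j = r then 1 else 0)) =
      M i - M j := by
    simp [mul_sub, Finset.sum_sub_distrib]
  rw [hS] at hP
  -- the value of `U i j`
  have hfix : ∀ σ : A ≃ₐ[ℚ] A, Ine V σ → σ (U i j) = U i j := by
    intro σ hσ
    have h1 := (i1 σ hσ).1
    rw [hUe σ hσ.1, h1, h1]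
  obtain ⟨k, hk⟩ := i2 (U i j) (hU i j) hfix
  have hk' : Vl V l (U i j) k := hk
  exact ⟨k, hP.mul hl0 (hk'.npow hl0 q)⟩

end Pool.Agent.Q124.SZ
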